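import Pool.Agent.Helper41.LD6.Defs

/-!
# Project LD6, block NUM: the numbers of a stage
-/

set_option autoImplicit false

namespace Pool.Agent.Helper76.LD6

open Pool.Agent.Helper41.LD6

theorem two_pow_ge {q : ℕ} (hq : 8 ≤ q) : 20 * (q + 1) ≤ 2 ^ q := by
  induction q, hq using Nat.le_induction with
  | base => norm_num
  | succ q hq ih =>
    rw [pow_succ]
    omega

theorem pow20_le {K : ℕ} (hK : 160 ≤ K) : K ^ 20 ≤ 2 ^ K := by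
  have h1 : 8 ≤ K / 20 := by omega
  have h2 : K ≤ 2 ^ (K / 20) := le_trans (by omega) (two_pow_ge h1)
  calc K ^ 20 ≤ (2 ^ (K / 20)) ^ 20 := Nat.pow_le_pow_left h2 20
    _ = 2 ^ (K / 20 * 20) := by rw [← pow_mul]
    _ ≤ 2 ^ K := Nat.pow_le_pow_right (by norm_num) (Nat.div_mul_le_self K 20)

theorem sq_le_two_pow {n : ℕ} (hn : 5 ≤ n) : n ^ 2 + 1 ≤ 2 ^ n := by
  induction n, hn using Nat.le_induction with
  | base => norm_num
  | succ n hn ih =>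
    rw [pow_succ 2 n]
    nlinarith

section

variable {F : Pm} {K : ℕ}

theorem num_le (F : Pm) : F.X + 1 ≤ F.Z ∧ F.d + 4 ≤ F.Z ∧ F.t ≤ F.Z ∧ F.D ≤ F.Z ∧ F.D' ≤ F.Z ∧ F.C₀ ≤ F.Z ∧ F.C₁ ≤ F.Z ∧ F.C₂ + 10 ≤ F.Z ∧ F.R ≤ F.Z ∧
    F.t * F.Gp ≤ F.Z ∧ (F.X + 1) * (F.d + 4) ≤ F.Z ∧ F.X * F.C₁ ≤ F.Z := by
  have ht : F.t = 2 * (F.d + 1) := rfl
  have hD' : F.D' = F.D + 4 + F.X * (F.t * F.Gp) := rfl
  have hC0 : F.C₀ = 40 * F.t + F.D' + 10 := rfl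
  have hC1 : F.C₁ = F.C₀ + 20 := rfl
  have hC2 : F.C₂ = F.C₁ + F.C₀ + 30 := rfl
  have hZ : F.Z = 1000 * (F.X + 1) * (F.C₂ + F.R + F.t * F.Gp + F.D' + 10) := rfl
  set s := F.C₂ + F.R + F.t * F.Gp + F.D' + 10 with hs
  have h1 : (F.X + 1) * s ≤ F.Z := by
    rw [hZ]
    have : 1000 * (F.X + 1) * s = 1000 * ((F.X + 1) * s) := by ring
    omega
  have h2 : s ≤ F.Z := le_trans (Nat.le_mul_of_pos_left s (Nat.succ_pos _)) h1
  have h3 : F.X + 1 ≤ F.Z := le_trans (Nat.le_mul_of_pos_right (F.X + 1) (by omega)) h1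
  have h4 : (F.X + 1) * (F.d + 4) ≤ F.Z := le_trans (Nat.mul_le_mul_left _ (by omega)) h1
  have h5 : F.X * F.C₁ ≤ F.Z := le_trans (Nat.mul_le_mul (Nat.le_succ _) (by omega)) h1
  refine ⟨h3, by omega, by omega, by omega, by omega, by omega, by omega, by omega, by omega, by omega, h4, h5⟩

theorem Z_ge (F : Pm) : 10000 ≤ F.Z := by
  have hZ : F.Z = 1000 * (F.X + 1) * (F.C₂ + F.R + F.t * F.Gp + F.D' + 10) := rfl
  rw [hZ]
  calc 10000 = 1000 * (0 + 1) * (0 + 10) := by norm_num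
    _ ≤ 1000 * (F.X + 1) * (F.C₂ + F.R + F.t * F.Gp + F.D' + 10) :=
        Nat.mul_le_mul (Nat.mul_le_mul_left _ (by omega)) (by omega)

theorem num_Z (hK : F.Big K) : 1000 ≤ F.Z ∧ F.Z ^ 4 ≤ K ∧ F.Z ≤ K := by
  have h1 := Z_ge F
  have h2 : F.Z ^ 4 ≤ K := hK
  have h3 : F.Z ^ 1 ≤ F.Z ^ 4 := Nat.pow_le_pow_right (by omega) (by norm_num)
  rw [pow_one] at h3
  exact ⟨by omega, h2, h3.trans h2⟩

theorem num_K (hK : F.Big K) : 1000000000000 ≤ K := by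
  have h1 := Z_ge F
  have h2 : F.Z ^ 4 ≤ K := hK
  have h3 : 10000 ^ 4 ≤ F.Z ^ 4 := Nat.pow_le_pow_left h1 4
  norm_num at h3
  omega

theorem num_E (F : Pm) (K : ℕ) : 4 * K ≤ F.E K ∧ F.E K ≤ F.Z * K ∧ K * (F.d + 1) ≤ F.E K ∧ K * F.t ≤ 2 * F.E K := by
  have hE : F.E K = (F.d + 4) * K := rfl
  have ht : F.t = 2 * (F.d + 1) := rfl
  rw [hE, ht]
  refine ⟨Nat.mul_le_mul_right K (by omega), Nat.mul_le_mul_right K (num_le F).2.1, ?_, ?_⟩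
  · rw [mul_comm K]
    exact Nat.mul_le_mul_right K (by omega)
  · have : K * (2 * (F.d + 1)) = 2 * ((F.d + 1) * K) := by ring
    rw [this]
    exact Nat.mul_le_mul_left 2 (Nat.mul_le_mul_right K (by omega))

/-- everything linear in `Z E` is small against `K ^ 2` -/
theorem num_ZE (hK : F.Big K) : 1000000 * (F.Z * F.E K) ≤ K ^ 2 := by
  have h1 := Z_ge F
  have h2 : F.Z ^ 4 ≤ K := hK
  have h3 := (num_E F K).2.1
  have h4 : 1000000 * F.Z ^ 2 ≤ F.Z ^ 4 := by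
    have : 1000000 ≤ F.Z ^ 2 := le_trans (by norm_num) (Nat.pow_le_pow_left h1 2)
    calc 1000000 * F.Z ^ 2 ≤ F.Z ^ 2 * F.Z ^ 2 := Nat.mul_le_mul_right _ this
      _ = F.Z ^ 4 := by ring
  calc 1000000 * (F.Z * F.E K) ≤ 1000000 * (F.Z * (F.Z * K)) :=
        Nat.mul_le_mul_left _ (Nat.mul_le_mul_left _ h3)
    _ = 1000000 * F.Z ^ 2 * K := by ring
    _ ≤ K * K := Nat.mul_le_mul_right K (h4.trans h2)
    _ = K ^ 2 := by ring

theorem num_R (hK : F.Big K) : (F.R * F.E K) ^ 2 ≤ K ^ 3 ∧ (F.X + 1) * (3 * (F.R * F.E K)) + 3 < K ^ 3 := by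
  have h0 := num_K hK
  have h1 := Z_ge F
  have h2 : F.Z ^ 4 ≤ K := hK
  have h3 := (num_E F K).2.1
  obtain ⟨hX, _, _, _, _, _, _, _, hR, _⟩ := num_le F
  have h4 : F.R * F.E K ≤ F.Z ^ 2 * K := by
    calc F.R * F.E K ≤ F.Z * (F.Z * K) := Nat.mul_le_mul hR h3
      _ = F.Z ^ 2 * K := by ring
  constructor
  · calc (F.R * F.E K) ^ 2 ≤ (F.Z ^ 2 * K) ^ 2 := Nat.pow_le_pow_left h4 2
      _ = F.Z ^ 4 * K ^ 2 := by ring
      _ ≤ K * K ^ 2 := Nat.mul_le_mul_right _ h2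
      _ = K ^ 3 := by ring
  · have h5 : F.Z ^ 3 ≤ K := le_trans (Nat.pow_le_pow_right (by omega) (by norm_num)) h2
    have h6 : (F.X + 1) * (3 * (F.R * F.E K)) ≤ 3 * K ^ 2 := by
      calc (F.X + 1) * (3 * (F.R * F.E K)) ≤ F.Z * (3 * (F.Z ^ 2 * K)) :=
            Nat.mul_le_mul hX (Nat.mul_le_mul_left _ h4)
        _ = 3 * (F.Z ^ 3 * K) := by ring
        _ ≤ 3 * (K * K) := Nat.mul_le_mul_left _ (Nat.mul_le_mul_right _ h5)
        _ = 3 * K ^ 2 := by ring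
    have h7 : 4 * K ^ 2 ≤ K ^ 3 := by
      calc 4 * K ^ 2 ≤ K * K ^ 2 := Nat.mul_le_mul_right _ (by omega)
        _ = K ^ 3 := by ring
    have h8 : 3 < K ^ 2 := lt_of_lt_of_le (by omega) (Nat.le_self_pow (by norm_num) K)
    omega

theorem num_pow (hK : F.Big K) : K ^ 20 ≤ 2 ^ K ∧ F.t * (F.Gp * F.E K) + 1 ≤ 2 ^ F.E K := by
  have h0 := num_K hK
  refine ⟨pow20_le (by omega), ?_⟩
  have h1 := (num_E F K).1
  obtain ⟨_, _, _, _, _, _, _, _, _, hG, _⟩ := num_le F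
  have h2 := (num_Z hK).2.2
  have h3 : F.t * F.Gp ≤ F.E K := by omega
  calc F.t * (F.Gp * F.E K) + 1 = F.t * F.Gp * F.E K + 1 := by rw [mul_assoc]
    _ ≤ F.E K * F.E K + 1 := Nat.add_le_add_right (Nat.mul_le_mul_right _ h3) 1
    _ = F.E K ^ 2 + 1 := by rw [sq]
    _ ≤ 2 ^ F.E K := sq_le_two_pow (by omega)

end

end Pool.Agent.Helper76.LD6
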