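import Mathlib

/-!
# Project LD6, blocks P1, P2: piecewise constant factors and break points
-/

set_option autoImplicit false

namespace Pool.Agent.Helper76.LD6

open Set MeasureTheory

/-- The half-open form. -/
theorem pcs_aux {f g : ℝ → ℝ} {ε₁ ε₂ : ℝ} (hf1 : ∀ x, |f x| ≤ 1) (hfm : Measurable f) (hg : Measurable g)
    (hg1 : ∀ x, |g x| ≤ 1) (hε₁ : 0 ≤ ε₁) (n : ℕ) : ∀ (S : Finset ℝ) (a b : ℝ), S.card ≤ n → a ≤ b →
    (∀ x ∈ Ico a b, ∀ y ∈ Ico a b, x ≤ y → (∀ z ∈ S, z ∉ Ioc x y) → f x = f y) →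
    (∀ s t, a ≤ s → s ≤ t → t ≤ b → |∫ x in s..t, g x| ≤ ε₁ + ε₂ * (t - s)) →
    |∫ x in a..b, f x * g x| ≤ (S.card + 1) * ε₁ + ε₂ * (b - a) := by
  have hint : ∀ p q : ℝ, IntervalIntegrable (fun x => f x * g x) volume p q := by
    intro p q
    rw [intervalIntegrable_iff]
    refine Measure.integrableOn_of_bounded (M := 1) (by simp) (hfm.mul hg).aestronglyMeasurable
      (Filter.Eventually.of_forall fun x => ?_)
    rw [Real.norm_eq_abs, abs_mul]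
    calc |f x| * |g x| ≤ 1 * 1 := mul_le_mul (hf1 x) (hg1 x) (abs_nonneg _) zero_le_one
      _ = 1 := one_mul 1
  induction n with
  | zero =>
    intro S a b hS hab hf h
    have hS0 : S = ∅ := by
      rw [← Finset.card_eq_zero]
      omega
    subst hS0
    have h1 : ∫ x in a..b, f x * g x = ∫ x in a..b, f a * g x := by
      rw [intervalIntegral.integral_of_le hab, intervalIntegral.integral_of_le hab,
        integral_Ioc_eq_integral_Ioo, integral_Ioc_eq_integral_Ioo]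
      refine setIntegral_congr_fun measurableSet_Ioo fun x hx => ?_
      show f x * g x = f a * g x
      rw [hf a ⟨le_refl a, hx.1.trans hx.2⟩ x ⟨hx.1.le, hx.2⟩ hx.1.le (by simp)]
    rw [h1, intervalIntegral.integral_const_mul, abs_mul]
    have h2 := h a b le_rfl hab le_rfl
    have h3 : |f a| * |∫ x in a..b, g x| ≤ 1 * (ε₁ + ε₂ * (b - a)) :=
      mul_le_mul (hf1 a) h2 (abs_nonneg _) zero_le_one
    simpa using h3
  | succ n ih =>
    intro S a b hS hab hf h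
    by_cases hz : ∃ z ∈ S, z ∈ Ioo a b
    · obtain ⟨z, hzS, hz1, hz2⟩ := hz
      have hc : (S.filter fun t => t < z).card + (S.filter fun t => z < t).card + 1 ≤ S.card := by
        have hd : Disjoint (S.filter fun t => t < z) (S.filter fun t => z < t) := by
          rw [Finset.disjoint_filter]
          intro t _ h1 h2
          exact absurd (h1.trans h2) (lt_irrefl _)
        rw [← Finset.card_union_of_disjoint hd]
        have hsub : (S.filter fun t => t < z) ∪ (S.filter fun t => z < t) ⊆ S.erase z := by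
          intro t ht
          rw [Finset.mem_union, Finset.mem_filter, Finset.mem_filter] at ht
          rw [Finset.mem_erase]
          rcases ht with ht | ht
          · exact ⟨ht.2.ne, ht.1⟩
          · exact ⟨ht.2.ne', ht.1⟩
        have := Finset.card_le_card hsub
        rw [Finset.card_erase_of_mem hzS] at this
        have h0 : 1 ≤ S.card := Finset.card_pos.2 ⟨z, hzS⟩
        omega
      have h1 := ih (S.filter fun t => t < z) a z (by omega) hz1.le (by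
        intro x hx y hy hxy hS'
        refine hf x ⟨hx.1, hx.2.trans hz2⟩ y ⟨hy.1, hy.2.trans hz2⟩ hxy ?_
        intro w hw hwx
        exact hS' w (Finset.mem_filter.2 ⟨hw, lt_of_le_of_lt hwx.2 hy.2⟩) hwx)
        (fun s t h1 h2 h3 => h s t h1 h2 (h3.trans hz2.le))
      have h2 := ih (S.filter fun t => z < t) z b (by omega) hz2.le (by
        intro x hx y hy hxy hS'
        refine hf x ⟨hz1.le.trans hx.1, hx.2⟩ y ⟨hz1.le.trans hy.1, hy.2⟩ hxy ?_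
        intro w hw hwx
        exact hS' w (Finset.mem_filter.2 ⟨hw, lt_of_le_of_lt hx.1 hwx.1⟩) hwx)
        (fun s t h1 h2 h3 => h s t (hz1.le.trans h1) h2 h3)
      rw [← intervalIntegral.integral_add_adjacent_intervals (hint a z) (hint z b)]
      refine (abs_add_le _ _).trans ((add_le_add h1 h2).trans ?_)
      have h3 : (((S.filter fun t => t < z).card : ℝ) + ((S.filter fun t => z < t).card : ℝ) + 1) ≤ (S.card : ℝ) := by
        exact_mod_cast hc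
      nlinarith [mul_le_mul_of_nonneg_right h3 hε₁]
    · push Not at hz
      have h0 := ih ∅ a b (by simp) hab (by
        intro x hx y hy hxy _
        refine hf x hx y hy hxy fun z hzS hzx => ?_
        exact hz z hzS ⟨lt_of_le_of_lt hx.1 hzx.1, lt_of_le_of_lt hzx.2 hy.2⟩) h
      refine h0.trans ?_
      have : (0 : ℝ) ≤ (S.card : ℝ) := Nat.cast_nonneg _
      have h4 : (0 : ℝ) ≤ (S.card : ℝ) * ε₁ := mul_nonneg this hε₁
      simp only [Finset.card_empty, Nat.cast_zero, zero_add, one_mul]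
      linarith

/-- **Block P1.** A piecewise constant factor. -/
theorem pcs {f g : ℝ → ℝ} {a b ε₁ ε₂ : ℝ} (hab : a ≤ b) (S : Finset ℝ) (hf : ∀ x ∈ Icc a b, ∀ y ∈ Icc a b, x ≤ y → (∀ z ∈ S, z ∉ Ioc x y) → f x = f y)
    (hf1 : ∀ x, |f x| ≤ 1) (hfm : Measurable f) (hg : Measurable g) (hg1 : ∀ x, |g x| ≤ 1) (hε₁ : 0 ≤ ε₁) (hε₂ : 0 ≤ ε₂)
    (h : ∀ s t, a ≤ s → s ≤ t → t ≤ b → |∫ x in s..t, g x| ≤ ε₁ + ε₂ * (t - s)) :
    |∫ x in a..b, f x * g x| ≤ (S.card + 1) * ε₁ + ε₂ * (b - a) :=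
  pcs_aux hf1 hfm hg hg1 hε₁ S.card S a b le_rfl hab
    (fun x hx y hy hxy h3 => hf x ⟨hx.1, hx.2.le⟩ y ⟨hy.1, hy.2.le⟩ hxy h3) h

/-- **Block P2.** The points where `⌊N₀ U⌋` jumps. -/
theorem brk {U : ℝ → ℝ} {a b : ℝ} (hab : a ≤ b) (hU : ContinuousOn U (Icc a b)) (hU2 : MonotoneOn U (Icc a b)) (N₀ : ℕ) :
    ∃ S : Finset ℝ, (S.card : ℝ) ≤ N₀ * (U b - U a) + 1 ∧
      ∀ x ∈ Icc a b, ∀ y ∈ Icc a b, x ≤ y → (∀ z ∈ S, z ∉ Ioc x y) → ⌊(N₀ : ℝ) * U x⌋ = ⌊(N₀ : ℝ) * U y⌋ := by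
  classical
  have hN : (0 : ℝ) ≤ N₀ := Nat.cast_nonneg _
  have hmono : ∀ x ∈ Icc a b, ∀ y ∈ Icc a b, x ≤ y → (N₀ : ℝ) * U x ≤ N₀ * U y := fun x hx y hy hxy =>
    mul_le_mul_of_nonneg_left (hU2 hx hy hxy) hN
  have ha : a ∈ Icc a b := ⟨le_refl a, hab⟩
  have hb : b ∈ Icc a b := ⟨hab, le_refl b⟩
  have key : ∀ k : ℤ, k ≤ ⌊(N₀ : ℝ) * U b⌋ → ∃ z ∈ Icc a b, (k : ℝ) ≤ N₀ * U z ∧
      ∀ y ∈ Icc a b, (k : ℝ) ≤ N₀ * U y → z ≤ y := by
    intro k hk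
    have hclosed : IsClosed {x | x ∈ Icc a b ∧ (k : ℝ) ≤ N₀ * U x} :=
      isClosed_Icc.isClosed_le continuousOn_const (continuousOn_const.mul hU)
    have hcomp : IsCompact {x | x ∈ Icc a b ∧ (k : ℝ) ≤ N₀ * U x} :=
      isCompact_Icc.of_isClosed_subset hclosed fun x hx => hx.1
    have hne : {x | x ∈ Icc a b ∧ (k : ℝ) ≤ N₀ * U x}.Nonempty := ⟨b, hb, Int.le_floor.1 hk⟩
    obtain ⟨z, hz, hmin⟩ := hcomp.exists_isLeast hne
    exact ⟨z, hz.1, hz.2, fun y hy hky => hmin ⟨hy, hky⟩⟩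
  choose! z hz1 hz2 hz3 using key
  refine ⟨(Finset.Ioc ⌊(N₀ : ℝ) * U a⌋ ⌊(N₀ : ℝ) * U b⌋).image z, ?_, ?_⟩
  · have h1 : (((Finset.Ioc ⌊(N₀ : ℝ) * U a⌋ ⌊(N₀ : ℝ) * U b⌋).image z).card : ℝ) ≤
        ((Finset.Ioc ⌊(N₀ : ℝ) * U a⌋ ⌊(N₀ : ℝ) * U b⌋).card : ℝ) := by
      exact_mod_cast Finset.card_image_le
    refine h1.trans ?_
    rw [Int.card_Ioc]
    have h2 : ⌊(N₀ : ℝ) * U a⌋ ≤ ⌊(N₀ : ℝ) * U b⌋ := Int.floor_le_floor (hmono a ha b hb hab)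
    have h3 : (((⌊(N₀ : ℝ) * U b⌋ - ⌊(N₀ : ℝ) * U a⌋).toNat : ℕ) : ℝ) =
        (⌊(N₀ : ℝ) * U b⌋ : ℝ) - (⌊(N₀ : ℝ) * U a⌋ : ℝ) := by
      have h4 : (((⌊(N₀ : ℝ) * U b⌋ - ⌊(N₀ : ℝ) * U a⌋).toNat : ℤ)) = ⌊(N₀ : ℝ) * U b⌋ - ⌊(N₀ : ℝ) * U a⌋ :=
        Int.toNat_of_nonneg (by omega)
      exact_mod_cast congrArg (fun t : ℤ => (t : ℝ)) h4
    rw [h3]
    have h5 := Int.floor_le ((N₀ : ℝ) * U b)
    have h6 := Int.lt_floor_add_one ((N₀ : ℝ) * U a)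
    linarith
  · intro x hx y hy hxy hS
    by_contra hne
    have h1 : ⌊(N₀ : ℝ) * U x⌋ ≤ ⌊(N₀ : ℝ) * U y⌋ := Int.floor_le_floor (hmono x hx y hy hxy)
    have h2 : ⌊(N₀ : ℝ) * U a⌋ ≤ ⌊(N₀ : ℝ) * U x⌋ := Int.floor_le_floor (hmono a ha x hx hx.1)
    have h3 : ⌊(N₀ : ℝ) * U y⌋ ≤ ⌊(N₀ : ℝ) * U b⌋ := Int.floor_le_floor (hmono y hy b hb hy.2)
    have hk : ⌊(N₀ : ℝ) * U x⌋ < ⌊(N₀ : ℝ) * U y⌋ := lt_of_le_of_ne h1 hne
    refine hS (z ⌊(N₀ : ℝ) * U y⌋) (Finset.mem_image.2 ⟨_, Finset.mem_Ioc.2 ⟨by omega, h3⟩, rfl⟩) ⟨?_, ?_⟩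
    · by_contra h4
      have h5 : z ⌊(N₀ : ℝ) * U y⌋ ≤ x := not_lt.1 h4
      have h6 := hmono _ (hz1 _ h3) x hx h5
      have h7 := (hz2 _ h3).trans h6
      exact absurd (Int.le_floor.2 h7) (not_le.2 hk)
    · exact hz3 _ h3 y hy (Int.floor_le _)

open Classical in
/-- **Block P2.** Children with a break point. -/
theorem few6 {f : ℝ → ℝ} {a ℓ : ℝ} (hℓ : 0 < ℓ) (S : Finset ℝ)
    (hf : ∀ x ∈ Icc a (a + ℓ), ∀ y ∈ Icc a (a + ℓ), x ≤ y → (∀ z ∈ S, z ∉ Ioc x y) → f x = f y) {B : ℕ} (hB : 1 ≤ B) :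
    (((Finset.range B).filter fun b : ℕ => ¬ ∃ v : ℝ, ∀ x ∈ Ioo (a + b * (ℓ / B)) (a + (b + 1) * (ℓ / B)), f x = v).card : ℝ) ≤ S.card := by
  have hB0 : (0 : ℝ) < B := by exact_mod_cast hB
  have hd : 0 < ℓ / B := div_pos hℓ hB0
  have hin : ∀ b : ℕ, b < B → ∀ x ∈ Ioo (a + b * (ℓ / B)) (a + (b + 1) * (ℓ / B)), x ∈ Icc a (a + ℓ) := by
    intro b hb x hx
    have h1 : (0 : ℝ) ≤ (b : ℝ) * (ℓ / B) := mul_nonneg (Nat.cast_nonneg _) hd.le
    have h2 : ((b : ℝ) + 1) * (ℓ / B) ≤ B * (ℓ / B) :=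
      mul_le_mul_of_nonneg_right (by exact_mod_cast hb) hd.le
    have h3 : (B : ℝ) * (ℓ / B) = ℓ := by field_simp
    exact ⟨by linarith [hx.1], by linarith [hx.2]⟩
  have key : ∀ b ∈ (Finset.range B).filter fun b : ℕ => ¬ ∃ v : ℝ, ∀ x ∈ Ioo (a + b * (ℓ / B)) (a + (b + 1) * (ℓ / B)), f x = v,
      ∃ z ∈ S, z ∈ Ioo (a + b * (ℓ / B)) (a + (b + 1) * (ℓ / B)) := by
    intro b hb
    rw [Finset.mem_filter, Finset.mem_range] at hb
    by_contra hno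
    push Not at hno
    apply hb.2
    have hcst : ∀ x ∈ Ioo (a + b * (ℓ / B)) (a + (b + 1) * (ℓ / B)), ∀ y ∈ Ioo (a + b * (ℓ / B)) (a + (b + 1) * (ℓ / B)),
        x ≤ y → f x = f y := by
      intro x hx y hy hxy
      refine hf x (hin b hb.1 x hx) y (hin b hb.1 y hy) hxy fun z hz hzx => ?_
      exact hno z hz ⟨hx.1.trans hzx.1, lt_of_le_of_lt hzx.2 hy.2⟩
    refine ⟨f (a + (b + 1 / 2) * (ℓ / B)), fun x hx => ?_⟩
    have hm : a + ((b : ℝ) + 1 / 2) * (ℓ / B) ∈ Ioo (a + b * (ℓ / B)) (a + (b + 1) * (ℓ / B)) := by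
      constructor <;> nlinarith
    rcases le_total x (a + ((b : ℝ) + 1 / 2) * (ℓ / B)) with h | h
    · exact hcst x hx _ hm h
    · exact (hcst _ hm x hx h).symm
  choose! z hz1 hz2 using key
  have hcard : ((Finset.range B).filter fun b : ℕ => ¬ ∃ v : ℝ, ∀ x ∈ Ioo (a + b * (ℓ / B)) (a + (b + 1) * (ℓ / B)), f x = v).card
      ≤ S.card := by
    refine Finset.card_le_card_of_injOn z (fun b hb => hz1 b hb) ?_
    intro b hb c hc hbc
    have h1 := hz2 b hb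
    have h2 := hz2 c hc
    rw [hbc] at h1
    by_contra hne
    rcases lt_or_gt_of_ne hne with h | h
    · have h3 : ((b : ℝ) + 1) * (ℓ / B) ≤ c * (ℓ / B) :=
        mul_le_mul_of_nonneg_right (by exact_mod_cast h) hd.le
      linarith [h1.2, h2.1]
    · have h3 : ((c : ℝ) + 1) * (ℓ / B) ≤ b * (ℓ / B) :=
        mul_le_mul_of_nonneg_right (by exact_mod_cast h) hd.le
      linarith [h1.1, h2.2]
  exact_mod_cast hcard

end Pool.Agent.Helper76.LD6
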